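import Pool.Agent.Helper96.KS.Parts

/-!
# KS, part PAIR: a pair of half-edges
-/

set_option autoImplicit false

open Finset

namespace KS.PAIR_helper46

open scoped Classical

open Inst

variable {K : ℕ}

lemma mem_Cls_self (I : Inst K) {η : I.H → I.H} (h : η ∈ I.Om) (D : Finset I.H) :
    η ∈ I.Cls η D := by
  simp [Inst.Cls, h]

lemma Cls_subset (I : Inst K) (η : I.H → I.H) (D : Finset I.H) : I.Cls η D ⊆ I.Om :=
  Finset.filter_subset _ _

lemma mem_Cls_symm (I : Inst K) {η η' : I.H → I.H} {D : Finset I.H} (h0 : η ∈ I.Om)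
    (h : η' ∈ I.Cls η D) : η ∈ I.Cls η' D := by
  have h2 : ∀ x ∈ D, η' x = η x := (Finset.mem_filter.1 h).2
  exact Finset.mem_filter.2 ⟨h0, fun x hx => (h2 x hx).symm⟩

lemma Cls_eq (I : Inst K) {η η' : I.H → I.H} {D : Finset I.H} (h : η' ∈ I.Cls η D) :
    I.Cls η' D = I.Cls η D := by
  have h2 : ∀ x ∈ D, η' x = η x := (Finset.mem_filter.1 h).2
  ext ζ
  simp only [Inst.Cls, Finset.mem_filter]
  constructor
  · rintro ⟨h1, h3⟩
    exact ⟨h1, fun x hx => (h3 x hx).trans (h2 x hx)⟩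
  · rintro ⟨h1, h3⟩
    exact ⟨h1, fun x hx => (h3 x hx).trans (h2 x hx).symm⟩

lemma part_le (I : Inst K) (Dm : (I.H → I.H) → Finset I.H)
    (hD : ∀ η ∈ I.Om, ∀ η' ∈ I.Cls η (Dm η), Dm η' = Dm η)
    (E : (I.H → I.H) → Prop) (c : ℝ)
    (h : ∀ η ∈ I.Om, (((I.Cls η (Dm η)).filter E).card : ℝ) ≤ (I.Cls η (Dm η)).card * c) :
    ((I.Om.filter E).card : ℝ) ≤ I.Om.card * c := by
  have key : ∀ η ∈ I.Om, ∀ η' ∈ I.Om, η' ∈ I.Cls η (Dm η) → η ∈ I.Cls η' (Dm η') := by
    intro η h1 η' h2 h3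
    rw [hD η h1 η' h3]
    exact mem_Cls_symm I h1 h3
  have hpos : ∀ η ∈ I.Om, (0 : ℝ) < (I.Cls η (Dm η)).card := by
    intro η h1
    exact_mod_cast Finset.card_pos.2 ⟨η, mem_Cls_self I h1 _⟩
  calc ((I.Om.filter E).card : ℝ) = ∑ η ∈ I.Om, if E η then (1 : ℝ) else 0 := by simp
    _ = ∑ η ∈ I.Om, ∑ η' ∈ I.Om, if η' ∈ I.Cls η (Dm η) then
          (if E η then (1 : ℝ) else 0) / (I.Cls η (Dm η)).card else 0 := by
        refine Finset.sum_congr rfl fun η h1 => ?_
        rw [← Finset.sum_filter]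
        have : I.Om.filter (fun η' => η' ∈ I.Cls η (Dm η)) = I.Cls η (Dm η) := by
          ext η'
          simp only [Finset.mem_filter]
          exact ⟨fun h => h.2, fun h => ⟨Cls_subset I _ _ h, h⟩⟩
        rw [this, Finset.sum_const, nsmul_eq_mul, mul_div_cancel₀ _ (hpos η h1).ne']
    _ = ∑ η' ∈ I.Om, ∑ η ∈ I.Om, if η' ∈ I.Cls η (Dm η) then
          (if E η then (1 : ℝ) else 0) / (I.Cls η (Dm η)).card else 0 := Finset.sum_comm
    _ ≤ ∑ η' ∈ I.Om, c := by
        refine Finset.sum_le_sum fun η' h1 => ?_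
        have h2 : ∑ η ∈ I.Om, (if η' ∈ I.Cls η (Dm η) then
            (if E η then (1 : ℝ) else 0) / (I.Cls η (Dm η)).card else 0)
            = (((I.Cls η' (Dm η')).filter E).card : ℝ) / (I.Cls η' (Dm η')).card := by
          have h3 : ∀ η ∈ I.Om, (if η' ∈ I.Cls η (Dm η) then
              (if E η then (1 : ℝ) else 0) / (I.Cls η (Dm η)).card else 0)
              = if η ∈ I.Cls η' (Dm η') then
                (if E η then (1 : ℝ) else 0) / (I.Cls η' (Dm η')).card else 0 := by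
            intro η h4
            by_cases h5 : η' ∈ I.Cls η (Dm η)
            · have h6 := key η h4 η' h1 h5
              rw [if_pos h5, if_pos h6, hD η h4 η' h5, Cls_eq I h5]
            · have h6 : η ∉ I.Cls η' (Dm η') := fun h => h5 (key η' h1 η h4 h)
              rw [if_neg h5, if_neg h6]
          rw [Finset.sum_congr rfl h3, ← Finset.sum_filter]
          have : I.Om.filter (fun η => η ∈ I.Cls η' (Dm η')) = I.Cls η' (Dm η') := by
            ext η
            simp only [Finset.mem_filter]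
            exact ⟨fun h => h.2, fun h => ⟨Cls_subset I _ _ h, h⟩⟩
          rw [this, ← Finset.sum_div]
          simp
        rw [h2, div_le_iff₀ (hpos η' h1)]
        have := h η' h1
        linarith
    _ = I.Om.card * c := by simp

/-- the leaves -/
noncomputable def Lf {I : Inst K} (s : ℕ) (om : ℝ) (S : I.St) : Finset I.H :=
  S.L.filter fun a => S.dep a = s ∧ om ≤ S.wt a

lemma Z_le (hTN : S_TN) {Δ : ℕ} (I : Inst K) (hV : I.Valid Δ) {s : ℕ} {om : ℝ}
    {G : Fin K → ℝ → ℝ} {b : I.H → ℝ} {S : I.St}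
    (hG : ∀ k x, -Real.log om < x → G k x = 0)
    (hw : ∀ a ∈ S.L, 0 < S.wt a) (hd : ∀ a ∈ S.L, S.dep a ≤ s) (hp : procs s om S = ∅) :
    Z s G b S ≤ ∑ a ∈ Lf s om S, S.wt a * G (I.c a) (-Real.log (S.wt a))
      + ∑ a ∈ S.F \ S.D, b a := by
  obtain ⟨-, -, hc, -, -, hm⟩ := hTN K Δ I hV
  unfold Z
  refine add_le_add ?_ le_rfl
  unfold Lf
  rw [Finset.sum_filter]
  refine Finset.sum_le_sum fun a ha => ?_
  by_cases h : S.dep a = s ∧ om ≤ S.wt a
  · rw [if_pos h, h.1]
    simp [Inst.Tn]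
  · rw [if_neg h]
    have h1 : S.wt a < om := by
      by_contra h2
      push Not at h2
      have h3 : S.dep a < s := by
        rcases lt_or_eq_of_le (hd a ha) with h4 | h4
        · exact h4
        · exact absurd ⟨h4, h2⟩ h
      have h4 : a ∈ procs s om S := Finset.mem_filter.2 ⟨ha, h3, h2⟩
      rw [hp] at h4
      simp at h4
    have h2 : -Real.log om < -Real.log (S.wt a) := by
      have := Real.log_lt_log (hw a ha) h1
      linarith
    have h3 : I.Tn (s - S.dep a) G (I.c a) (-Real.log (S.wt a)) ≤ 0 := by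
      calc I.Tn (s - S.dep a) G (I.c a) (-Real.log (S.wt a))
          ≤ I.Tn (s - S.dep a) (fun _ _ => (0 : ℝ)) (I.c a) (-Real.log (S.wt a)) := by
            apply hm
            intro l y hy _
            have : 0 ≤ ((s - S.dep a : ℕ) : ℝ) * Real.log 2 :=
              mul_nonneg (Nat.cast_nonneg _) (Real.log_nonneg (by norm_num))
            rw [hG l y (by linarith)]
        _ = 0 := hc _ _ _ _
    exact mul_nonpos_of_nonneg_of_nonpos (hw a ha).le h3

/-- the walk is at least the sum over pairs of leaves -/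
lemma P_low (hSK : S_SK) (hREV : S_REV) {Δ : ℕ} (I : Inst K) (hV : I.Valid Δ) {sx sy : ℕ} {om : ℝ}
    (hom : 0 < om) {η : I.H → I.H} (hη : η ∈ I.Om) (x y : I.H) (kx ky : ℕ) (D F : Finset I.H)
    (hD : ∀ a ∈ D, η a ∈ D) (hyD : y ∉ D) (hyF : y ∉ F)
    (hwx : ∀ a ∈ (run sx om η kx (init ∅ ∅ x)).L, 0 < (run sx om η kx (init ∅ ∅ x)).wt a)
    (hwy : ∀ a ∈ (run sy om η ky (init D F y)).L, 0 < (run sy om η ky (init D F y)).wt a) :
    ∑ u ∈ Lf sx om (run sx om η kx (init ∅ ∅ x)), ∑ v ∈ Lf sy om (run sy om η ky (init D F y)),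
      (if η u = v then (run sx om η kx (init ∅ ∅ x)).wt u * (run sy om η ky (init D F y)).wt v
        else 0) ≤ ((I.P η) ^ (sx + sy)) x (η y) := by
  obtain ⟨hrev, hpn, -⟩ := hREV K Δ I hV η hη
  have hinv : ∀ z, η (η z) = z := by
    have := (Finset.mem_filter.1 hη).2.1
    exact this
  have h1 := hSK K Δ I hV sx om η ∅ ∅ x kx (fun z => ((I.P η) ^ sy) z (η y)) hom hη
    (by simp) (by simp) (by simp) (fun z => hpn _ _ _)
  have h2 : ((I.P η) ^ (sx + sy)) x (η y) = ∑ z, ((I.P η) ^ sx) x z * ((I.P η) ^ sy) z (η y) := by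
    rw [pow_add, Matrix.mul_apply]
  rw [h2]
  refine le_trans ?_ h1
  set Rx := run sx om η kx (init ∅ ∅ x) with hRx
  set Ry := run sy om η ky (init D F y) with hRy
  have h3 : ∀ a, ∑ v ∈ Lf sy om Ry, (if η a = v then Ry.wt v else 0) ≤ ((I.P η) ^ sy) a (η y) := by
    intro a
    have h4 := hSK K Δ I hV sy om η D F y ky (fun z => if z = η a then (1 : ℝ) else 0) hom hη
      hD hyD hyF (fun z => by positivity)
    have h5 : ∑ z, ((I.P η) ^ sy) y z * (if z = η a then (1 : ℝ) else 0)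
        = ((I.P η) ^ sy) a (η y) := by
      rw [hrev sy a (η y), hinv]
      simp
    rw [h5] at h4
    refine le_trans ?_ h4
    rw [← hRy]
    unfold Lf
    rw [Finset.sum_filter]
    refine Finset.sum_le_sum fun v hv => ?_
    have h6 : 0 ≤ Ry.wt v * ∑ z, ((I.P η) ^ (sy - Ry.dep v)) v z * (if z = η a then (1 : ℝ) else 0) := by
      refine mul_nonneg (hwy v hv).le (Finset.sum_nonneg fun z _ => mul_nonneg (hpn _ _ _) ?_)
      positivity
    by_cases h : Ry.dep v = sy ∧ om ≤ Ry.wt v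
    · rw [if_pos h]
      by_cases h7 : η a = v
      · rw [if_pos h7, h.1]
        simp [Matrix.one_apply, h7]
      · rw [if_neg h7]
        exact h6
    · rw [if_neg h]
      exact h6
  have h8 : ∑ a ∈ Lf sx om Rx, Rx.wt a * ((I.P η) ^ sy) a (η y)
      ≤ ∑ a ∈ Rx.L, Rx.wt a * ∑ z, ((I.P η) ^ (sx - Rx.dep a)) a z * ((I.P η) ^ sy) z (η y) := by
    unfold Lf
    rw [Finset.sum_filter]
    refine Finset.sum_le_sum fun a ha => ?_
    by_cases h : Rx.dep a = sx ∧ om ≤ Rx.wt a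
    · rw [if_pos h, h.1]
      simp [Matrix.one_apply]
    · rw [if_neg h]
      exact mul_nonneg (hwx a ha).le (Finset.sum_nonneg fun z _ => mul_nonneg (hpn _ _ _) (hpn _ _ _))
  refine le_trans ?_ h8
  refine Finset.sum_le_sum fun a ha => ?_
  have ha' : a ∈ Rx.L := (Finset.mem_filter.1 ha).1
  calc ∑ v ∈ Lf sy om Ry, (if η a = v then Rx.wt a * Ry.wt v else 0)
      = Rx.wt a * ∑ v ∈ Lf sy om Ry, (if η a = v then Ry.wt v else 0) := by
        rw [Finset.mul_sum]
        refine Finset.sum_congr rfl fun v _ => ?_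
        split_ifs <;> simp
    _ ≤ Rx.wt a * ((I.P η) ^ sy) a (η y) := mul_le_mul_of_nonneg_left (h3 a) (hwx a ha').le

/-- finite linear combinations -/
lemma Tn_sum (hTN : S_TN) {Δ : ℕ} (I : Inst K) (hV : I.Valid Δ) (n : ℕ) {ι : Type} (A : Finset ι)
    (w : ι → ℝ) (f : ι → Fin K → ℝ → ℝ) (k : Fin K) (x : ℝ) :
    I.Tn n (fun k x => ∑ u ∈ A, w u * f u k x) k x = ∑ u ∈ A, w u * I.Tn n (f u) k x := by
  obtain ⟨-, hl, hc, -, -, -⟩ := hTN K Δ I hV
  induction A using Finset.induction_on with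
  | empty => simpa using hc n 0 k x
  | insert a A ha ih =>
    have h1 : (fun (k : Fin K) (x : ℝ) => ∑ u ∈ insert a A, w u * f u k x)
        = fun k x => w a * f a k x + 1 * (fun k x => ∑ u ∈ A, w u * f u k x) k x := by
      funext k x
      rw [Finset.sum_insert ha, one_mul]
    rw [h1, hl n (f a) (fun k x => ∑ u ∈ A, w u * f u k x) (w a) 1 k x, ih,
      Finset.sum_insert ha, one_mul]

/-- the function for the first exploration -/
noncomputable def GX (I : Inst K) (Δ r sy : ℕ) (om th : ℝ) (k' : Fin K) : Fin K → ℝ → ℝ :=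
  fun k x => I.Tn (sy - r) (fun l y =>
    if -Real.log th - r * Real.log 2 ≤ x + y ∧ y ≤ -Real.log om - r * Real.log Δ ∧
      x ≤ -Real.log om then I.Msw k l else 0) k' 0

/-- the function for the second exploration -/
noncomputable def GY (I : Inst K) (om th : ℝ) (A : Finset I.H) (w : I.H → ℝ) :
    Fin K → ℝ → ℝ :=
  fun l y => ∑ u ∈ A, w u * (if -Real.log th ≤ -Real.log (w u) + y ∧ y ≤ -Real.log om then
    I.Msw (I.c u) l else 0)

lemma GX_nonneg (hTN : S_TN) (hQ : S_Q) {Δ : ℕ} (I : Inst K) (hV : I.Valid Δ) (r sy : ℕ)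
    (om th : ℝ) (k' : Fin K) (k : Fin K) (x : ℝ) : 0 ≤ GX I Δ r sy om th k' k x := by
  obtain ⟨hm, -, hc, -, -, -⟩ := hTN K Δ I hV
  obtain ⟨hM0, -⟩ := hQ K Δ I hV
  unfold GX
  calc (0 : ℝ) = I.Tn (sy - r) (fun _ _ => (0 : ℝ)) k' 0 := (hc _ _ _ _).symm
    _ ≤ _ := by
      apply hm
      intro l y
      split_ifs
      · exact hM0 _ _
      · exact le_rfl

lemma GX_le_one (hTN : S_TN) (hQ : S_Q) {Δ : ℕ} (I : Inst K) (hV : I.Valid Δ) (r sy : ℕ)
    (om th : ℝ) (k' : Fin K) (k : Fin K) (x : ℝ) : GX I Δ r sy om th k' k x ≤ 1 := by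
  obtain ⟨hm, -, hc, -, -, -⟩ := hTN K Δ I hV
  obtain ⟨-, hM1, -⟩ := hQ K Δ I hV
  unfold GX
  calc _ ≤ I.Tn (sy - r) (fun _ _ => (1 : ℝ)) k' 0 := by
        apply hm
        intro l y
        split_ifs
        · exact hM1 _ _
        · norm_num
    _ = 1 := hc _ _ _ _

lemma GX_zero (hTN : S_TN) {Δ : ℕ} (I : Inst K) (hV : I.Valid Δ) (r sy : ℕ)
    (om th : ℝ) (k' : Fin K) (k : Fin K) (x : ℝ) (hx : -Real.log om < x) :
    GX I Δ r sy om th k' k x = 0 := by
  obtain ⟨-, -, hc, -, -, -⟩ := hTN K Δ I hV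
  unfold GX
  have : (fun (l : Fin K) (y : ℝ) =>
    if -Real.log th - r * Real.log 2 ≤ x + y ∧ y ≤ -Real.log om - r * Real.log Δ ∧
      x ≤ -Real.log om then I.Msw k l else 0) = fun _ _ => 0 := by
    funext l y
    rw [if_neg]
    rintro ⟨-, -, h⟩
    linarith
  rw [this]
  exact hc _ _ _ _

lemma ideal_le (hTN : S_TN) (hQ : S_Q) {Δ : ℕ} (I : Inst K) (hV : I.Valid Δ) (r sx sy : ℕ)
    (om th : ℝ) (k' : Fin K) (k : Fin K) (x : ℝ) (h1 : r * Real.log 2 ≤ x)
    (h2 : x ≤ r * Real.log Δ) :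
    I.ideal (sx - r) (sy - r) (-Real.log th - 2 * r * Real.log 2)
      (-Real.log om - r * Real.log Δ) k k' ≤ I.Tn (sx - r) (GX I Δ r sy om th k') k x := by
  obtain ⟨hm, -, hc, -, ht, -⟩ := hTN K Δ I hV
  obtain ⟨hM0, -⟩ := hQ K Δ I hV
  rw [ht (sx - r) (GX I Δ r sy om th k') k x]
  unfold Inst.ideal GX
  apply hm
  intro l z
  apply hm
  intro m w
  split_ifs with h3 h4
  · exact le_rfl
  · exfalso
    apply h4
    obtain ⟨h5, h6, h7⟩ := h3
    exact ⟨by linarith, h7, by linarith⟩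
  · exact hM0 _ _
  · exact le_rfl

lemma GY_nonneg (hQ : S_Q) {Δ : ℕ} (I : Inst K) (hV : I.Valid Δ) (om th : ℝ) (A : Finset I.H)
    (w : I.H → ℝ) (hw : ∀ a ∈ A, 0 ≤ w a) (k : Fin K) (x : ℝ) : 0 ≤ GY I om th A w k x := by
  obtain ⟨hM0, -⟩ := hQ K Δ I hV
  unfold GY
  refine Finset.sum_nonneg fun u hu => mul_nonneg (hw u hu) ?_
  split_ifs
  · exact hM0 _ _
  · exact le_rfl

lemma GY_le_one (hQ : S_Q) {Δ : ℕ} (I : Inst K) (hV : I.Valid Δ) (om th : ℝ) (A : Finset I.H)
    (w : I.H → ℝ) (hw : ∀ a ∈ A, 0 ≤ w a) (hs : ∑ a ∈ A, w a ≤ 1) (k : Fin K) (x : ℝ) :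
    GY I om th A w k x ≤ 1 := by
  obtain ⟨-, hM1, -⟩ := hQ K Δ I hV
  unfold GY
  refine le_trans (Finset.sum_le_sum fun u hu => ?_) hs
  refine mul_le_of_le_one_right (hw u hu) ?_
  split_ifs
  · exact hM1 _ _
  · norm_num

lemma GY_zero (I : Inst K) (om th : ℝ) (A : Finset I.H)
    (w : I.H → ℝ) (k : Fin K) (x : ℝ) (hx : -Real.log om < x) :
    GY I om th A w k x = 0 := by
  unfold GY
  refine Finset.sum_eq_zero fun u _ => ?_
  rw [if_neg, mul_zero]
  rintro ⟨-, h⟩
  linarith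

lemma GY_ge (hTN : S_TN) (hQ : S_Q) {Δ : ℕ} (I : Inst K) (hV : I.Valid Δ) (r sy : ℕ)
    (om th : ℝ) (A : Finset I.H) (w : I.H → ℝ) (hw : ∀ a ∈ A, 0 ≤ w a)
    (k' : Fin K) (y : ℝ) (h1 : r * Real.log 2 ≤ y) (h2 : y ≤ r * Real.log Δ) :
    ∑ u ∈ A, w u * GX I Δ r sy om th k' (I.c u) (-Real.log (w u))
      ≤ I.Tn (sy - r) (GY I om th A w) k' y := by
  obtain ⟨hm, -, hc, -, ht, -⟩ := hTN K Δ I hV
  obtain ⟨hM0, -⟩ := hQ K Δ I hV
  rw [ht (sy - r) (GY I om th A w) k' y]
  unfold GY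
  rw [Tn_sum hTN I hV (sy - r) A w (fun u l z => if -Real.log th ≤ -Real.log (w u) + (y + z) ∧
    y + z ≤ -Real.log om then I.Msw (I.c u) l else 0) k' 0]
  refine Finset.sum_le_sum fun u hu => mul_le_mul_of_nonneg_left ?_ (hw u hu)
  unfold GX
  apply hm
  intro l z
  split_ifs with h3 h4
  · exact le_rfl
  · exfalso
    apply h4
    obtain ⟨h5, h6, h7⟩ := h3
    exact ⟨by linarith, by linarith⟩
  · exact hM0 _ _
  · exact le_rfl

/-- the invariant of the initial state -/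
lemma init_inv {Δ s : ℕ} {om B : ℝ} (I : Inst K) {η : I.H → I.H} {D F : Finset I.H} {x : I.H}
    (hD : ∀ a ∈ D, η a ∈ D) (hxD : x ∉ D) (hxF : x ∉ F)
    (hB : (D.card : ℝ) + 1 + F.card + 2 * Δ * s / om ≤ B) : Inv Δ s om B η (init D F x) where
  closed := hD
  LD := by
    intro a ha
    have : a = x := by simpa [init] using ha
    subst this
    exact hxD
  LF := by
    intro a ha
    have : a = x := by simpa [init] using ha
    subst this
    exact hxF
  wpos := by
    intro a _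
    exact one_pos
  deps := by
    intro a _
    exact Nat.zero_le _
  sum1 := by simp [init]
  cap := by
    simpa [init] using hB

/-- the state of the first exploration -/
noncomputable def RX (I : Inst K) (sx : ℕ) (om : ℝ) (x : I.H) (η : I.H → I.H) : I.St :=
  run sx om η ⌈(sx : ℝ) / om⌉₊ (init ∅ ∅ x)

/-- the state of the second exploration -/
noncomputable def RY (I : Inst K) (sx sy : ℕ) (om : ℝ) (x y : I.H) (η : I.H → I.H) : I.St :=
  run sy om η ⌈(sy : ℝ) / om⌉₊ (init (RX I sx om x η).D (RX I sx om x η).L y)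

lemma RX_spec (hCL : S_CL) {Δ : ℕ} (I : Inst K) (hV : I.Valid Δ) (sx : ℕ) {om : ℝ} (hom : 0 < om)
    (x : I.H) {η : I.H → I.H} (hη : η ∈ I.Om) :
    Inv Δ sx om (1 + 2 * Δ * sx / om) η (RX I sx om x η) ∧
    (∀ η' ∈ I.Cls η (RX I sx om x η).D, RX I sx om x η' = RX I sx om x η) ∧
    procs sx om (RX I sx om x η) = ∅ := by
  have h0 : Inv Δ sx om (1 + 2 * Δ * sx / om) η (init (∅ : Finset I.H) ∅ x) :=
    init_inv I (by simp) (by simp) (by simp) (by simp)
  obtain ⟨h1, -, -, h2, h3⟩ := hCL K Δ I hV sx om (1 + 2 * Δ * sx / om) η η (init ∅ ∅ x)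
    ⌈(sx : ℝ) / om⌉₊ hom hη h0 (mem_Cls_self I hη _)
  refine ⟨h1, h2, h3 ?_⟩
  have : ∑ a ∈ (init (∅ : Finset I.H) ∅ x).L, (init (∅ : Finset I.H) ∅ x).wt a
      * ((sx : ℝ) - (init (∅ : Finset I.H) ∅ x).dep a) = sx := by
    simp [init]
  rw [this]
  exact Nat.le_ceil _

lemma RY_spec (hCL : S_CL) {Δ : ℕ} (I : Inst K) (hV : I.Valid Δ) (sx sy : ℕ) {om B : ℝ}
    (hom : 0 < om) (hB : 2 + 2 * Δ * ((sx : ℝ) + sy) / om ≤ B)
    (x y : I.H) {η : I.H → I.H} (hη : η ∈ I.Om) (h1 : y ∉ (RX I sx om x η).D)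
    (h2 : y ∉ (RX I sx om x η).L) :
    Inv Δ sy om B η (RY I sx sy om x y η) ∧
    (RX I sx om x η).D ⊆ (RY I sx sy om x y η).D ∧
    (RY I sx sy om x y η).F = (RX I sx om x η).L ∧
    (∀ η' ∈ I.Cls η (RY I sx sy om x y η).D, RY I sx sy om x y η' = RY I sx sy om x y η) ∧
    procs sy om (RY I sx sy om x y η) = ∅ ∧
    (((RX I sx om x η).D.card : ℝ) + 1 + (RX I sx om x η).L.card + 2 * Δ * sy / om ≤ B) := by
  obtain ⟨hi, hc, hp⟩ := RX_spec hCL I hV sx hom x hη
  have hcap : ((RX I sx om x η).D.card : ℝ) + 1 + (RX I sx om x η).L.card + 2 * Δ * sy / om ≤ B := by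
    have h3 := hi.cap
    have h4 : 0 ≤ 2 * (Δ : ℝ) * (∑ a ∈ (RX I sx om x η).L, (RX I sx om x η).wt a *
        ((sx : ℝ) - (RX I sx om x η).dep a)) / om := by
      refine div_nonneg (mul_nonneg (by positivity) (Finset.sum_nonneg fun a ha => ?_)) hom.le
      refine mul_nonneg (hi.wpos a ha).le (sub_nonneg.2 ?_)
      exact_mod_cast hi.deps a ha
    have h5 : (0 : ℝ) ≤ (RX I sx om x η).F.card := Nat.cast_nonneg _
    have h6 : 2 * (Δ : ℝ) * ((sx : ℝ) + sy) / om = 2 * Δ * sx / om + 2 * Δ * sy / om := by ring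
    linarith
  have h0 : Inv Δ sy om B η (init (RX I sx om x η).D (RX I sx om x η).L y) :=
    init_inv I hi.closed h1 h2 hcap
  obtain ⟨g1, g2, g3, g4, g5⟩ := hCL K Δ I hV sy om B η η
    (init (RX I sx om x η).D (RX I sx om x η).L y)
    ⌈(sy : ℝ) / om⌉₊ hom hη h0 (mem_Cls_self I hη _)
  refine ⟨g1, g2, g3, ?_, g5 ?_, hcap⟩
  · intro η' h'
    have h3 : η' ∈ I.Cls η (RX I sx om x η).D := by
      have h4 := Finset.mem_filter.1 h'
      exact Finset.mem_filter.2 ⟨h4.1, fun z hz => h4.2 z (g2 hz)⟩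
    have h5 := g4 η' h'
    show run sy om η' ⌈(sy : ℝ) / om⌉₊ (init (RX I sx om x η').D (RX I sx om x η').L y) = _
    rw [hc η' h3]
    exact h5
  · have : ∑ a ∈ (init (RX I sx om x η).D (RX I sx om x η).L y).L,
        (init (RX I sx om x η).D (RX I sx om x η).L y).wt a
        * ((sy : ℝ) - (init (RX I sx om x η).D (RX I sx om x η).L y).dep a) = sy := by
      simp [init]
    rw [this]
    exact Nat.le_ceil _

/-- error exponent of one exploration -/
noncomputable def e1 (I : Inst K) (Δ r : ℕ) (om B lam ep s : ℝ) : ℝ :=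
  Real.exp (-lam * ep + 4 * lam ^ 2 * (1 / 2) ^ r + lam * I.err Δ om B * s)

lemma e1_mono (I : Inst K) (Δ r : ℕ) {om B lam ep s s' : ℝ} (hom : 0 < om) (hB : 0 ≤ B)
    (hlam : 0 ≤ lam) (h : s ≤ s') : e1 I Δ r om B lam ep s ≤ e1 I Δ r om B lam ep s' := by
  unfold e1 Inst.err
  apply Real.exp_le_exp.2
  have : 0 ≤ lam * (20 * (K : ℝ) ^ 2 * Δ * (B + 1) / I.N + 20 * K / (I.N * om)) := by positivity
  nlinarith

/-- first exploration: exceptional set -/
def E1 (I : Inst K) (Δ r sx sy : ℕ) (om th ep ze : ℝ) (x : I.H) (k' : Fin K)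
    (η : I.H → I.H) : Prop :=
  NC r sx om η ⌈(sx : ℝ) / om⌉₊ (init ∅ ∅ x) ∧
    Z sx (GX I Δ r sy om th k') (fun _ => 0) (RX I sx om x η) < ze / K - ep

lemma E1_card (hTL1 : S_TL1) (hTN : S_TN) (hQ : S_Q) {Δ : ℕ} (I : Inst K) (hV : I.Valid Δ)
    (r sx sy : ℕ) (om th B lam ep ze : ℝ) (hom : 0 < om) (hlam : 0 ≤ lam) (hrx : r ≤ sx)
    (hB : 2 + 2 * Δ * ((sx : ℝ) + sy) / om ≤ B) (hN : 4 * K * (3 * B + 2) ≤ I.N)
    (homr : om ≤ (1 / (Δ : ℝ)) ^ r) (hlr : 4 * lam * (1 / 2) ^ r ≤ 1)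
    (hid : ∀ k1 k2, ze ≤ K * I.ideal (sx - r) (sy - r) (-Real.log th - 2 * r * Real.log 2)
      (-Real.log om - r * Real.log Δ) k1 k2) (x : I.H) (k' : Fin K) :
    ((I.Om.filter (E1 I Δ r sx sy om th ep ze x k')).card : ℝ)
      ≤ I.Om.card * e1 I Δ r om B lam ep (sx + sy) := by
  rcases I.Om.eq_empty_or_nonempty with h0 | ⟨η0, h0⟩
  · simp [h0]
  have hK : (0 : ℝ) < K := by
    have := hV.hK
    exact_mod_cast (by omega : 0 < K)
  have hB0 : 0 ≤ 2 * (Δ : ℝ) * ((sx : ℝ) + sy) / om := by positivity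
  have hcls : I.Cls η0 ∅ = I.Om := by
    unfold Inst.Cls
    simp
  have h1 := hTL1 K Δ I hV r sx om B lam (ze / K) ep (GX I Δ r sy om th k') (fun _ => 0) η0 ∅ ∅ x
    hom hlam (GX_nonneg hTN hQ I hV r sy om th k') (GX_le_one hTN hQ I hV r sy om th k')
    (fun _ => le_rfl) h0 (by simp) (by simp) (by simp)
    (by
      have : 2 * (Δ : ℝ) * sx / om ≤ 2 * Δ * ((sx : ℝ) + sy) / om := by
        apply div_le_div_of_nonneg_right _ hom.le
        have : (0 : ℝ) ≤ 2 * Δ * sy := by positivity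
        nlinarith
      simp only [Finset.card_empty, Nat.cast_zero]
      linarith)
    (by
      refine le_trans ?_ hN
      have : (0 : ℝ) ≤ 4 * K := by positivity
      nlinarith)
    hrx homr hlr (by simp) (by simp)
    (fun k y hy1 hy2 => by
      have h2 := ideal_le hTN hQ I hV r sx sy om th k' k y hy1 hy2
      refine le_trans ?_ h2
      rw [div_le_iff₀ hK]
      linarith [hid k k'])
    ⌈(sx : ℝ) / om⌉₊
  rw [hcls] at h1
  refine le_trans ?_ (le_trans h1 (mul_le_mul_of_nonneg_left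
    (e1_mono (s := (sx : ℝ)) I Δ r hom (by linarith) hlam (by simp)) (Nat.cast_nonneg _)))
  have : I.Om.filter (E1 I Δ r sx sy om th ep ze x k') = I.Om.filter fun η =>
      NC r sx om η ⌈(sx : ℝ) / om⌉₊ (init ∅ ∅ x) ∧
      Z sx (GX I Δ r sy om th k') (fun _ => 0) (run sx om η ⌈(sx : ℝ) / om⌉₊ (init ∅ ∅ x))
        < ze / K + ∑ a ∈ (∅ : Finset I.H) \ ∅, (fun _ => (0 : ℝ)) a - ep := by
    apply Finset.filter_congr
    intro η _
    unfold E1 RX
    simp
  rw [this]

/-- the first exploration is good -/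
def Good (I : Inst K) (Δ r sx sy : ℕ) (om th ep ze : ℝ) (x : I.H) (η : I.H → I.H) : Prop :=
  ∀ k', ze / K - ep ≤ ∑ u ∈ Lf sx om (RX I sx om x η), (RX I sx om x η).wt u *
    GX I Δ r sy om th k' (I.c u) (-Real.log ((RX I sx om x η).wt u))

/-- second exploration: exceptional set for the function -/
def E2 (I : Inst K) (Δ r sx sy : ℕ) (om th ep ze : ℝ) (x y : I.H) (η : I.H → I.H) : Prop :=
  y ∉ (RX I sx om x η).D ∧ y ∉ (RX I sx om x η).L ∧ Good I Δ r sx sy om th ep ze x η ∧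
  NC r sy om η ⌈(sy : ℝ) / om⌉₊ (init (RX I sx om x η).D (RX I sx om x η).L y) ∧
    Z sy (GY I om th (Lf sx om (RX I sx om x η)) (RX I sx om x η).wt) (fun _ => 0)
      (RY I sx sy om x y η) < ze / K - ep - ep

lemma E2_card (hTL1 : S_TL1) (hCL : S_CL) (hTN : S_TN) (hQ : S_Q) {Δ : ℕ} (I : Inst K)
    (hV : I.Valid Δ)
    (r sx sy : ℕ) (om th B lam ep ze : ℝ) (hom : 0 < om) (hlam : 0 ≤ lam)
    (hry : r ≤ sy)
    (hB : 2 + 2 * Δ * ((sx : ℝ) + sy) / om ≤ B) (hN : 4 * K * (3 * B + 2) ≤ I.N)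
    (homr : om ≤ (1 / (Δ : ℝ)) ^ r) (hlr : 4 * lam * (1 / 2) ^ r ≤ 1) (x y : I.H) :
    ((I.Om.filter (E2 I Δ r sx sy om th ep ze x y)).card : ℝ)
      ≤ I.Om.card * e1 I Δ r om B lam ep (sx + sy) := by
  have hB0 : 0 ≤ 2 * (Δ : ℝ) * ((sx : ℝ) + sy) / om := by positivity
  refine part_le I (fun η => (RX I sx om x η).D) ?_ _ _ ?_
  · intro η hη η' h'
    rw [(RX_spec hCL I hV sx hom x hη).2.1 η' h']
  · intro η hη
    obtain ⟨hi, hc, hp⟩ := RX_spec hCL I hV sx hom x hη
    by_cases hcond : y ∉ (RX I sx om x η).D ∧ y ∉ (RX I sx om x η).L ∧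
        Good I Δ r sx sy om th ep ze x η
    · obtain ⟨hy1, hy2, hgood⟩ := hcond
      have hcap := (RY_spec hCL I hV sx sy hom hB x y hη hy1 hy2).2.2.2.2.2
      have hw : ∀ a ∈ Lf sx om (RX I sx om x η), 0 ≤ (RX I sx om x η).wt a := fun a ha =>
        (hi.wpos a (Finset.mem_filter.1 ha).1).le
      have hs : ∑ a ∈ Lf sx om (RX I sx om x η), (RX I sx om x η).wt a ≤ 1 :=
        le_trans (Finset.sum_le_sum_of_subset_of_nonneg (Finset.filter_subset _ _)
          fun a ha _ => (hi.wpos a ha).le) hi.sum1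
      have h1 := hTL1 K Δ I hV r sy om B lam (ze / K - ep) ep
        (GY I om th (Lf sx om (RX I sx om x η)) (RX I sx om x η).wt) (fun _ => 0) η
        (RX I sx om x η).D (RX I sx om x η).L y
        hom hlam (GY_nonneg hQ I hV om th _ _ hw) (GY_le_one hQ I hV om th _ _ hw hs)
        (fun _ => le_rfl) hη hi.closed hy1 hy2 hcap
        (by
          refine le_trans ?_ hN
          have : (0 : ℝ) ≤ 4 * K := by positivity
          nlinarith)
        hry homr hlr (by simp) (by simp)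
        (fun k z hz1 hz2 => le_trans (hgood k) (GY_ge hTN hQ I hV r sy om th _ _ hw k z hz1 hz2))
        ⌈(sy : ℝ) / om⌉₊
      refine le_trans ?_ (le_trans h1 (mul_le_mul_of_nonneg_left
        (e1_mono (s := (sy : ℝ)) I Δ r hom (by linarith) hlam (by simp)) (Nat.cast_nonneg _)))
      refine Nat.cast_le.2 (Finset.card_le_card ?_)
      intro η' h'
      obtain ⟨h2, h3⟩ := Finset.mem_filter.1 h'
      obtain ⟨-, -, -, h4, h5⟩ := h3
      have h6 := hc η' h2
      rw [Finset.mem_filter]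
      unfold RY at h5
      rw [h6] at h4 h5
      refine ⟨h2, h4, ?_⟩
      simpa using h5
    · have : (I.Cls η (RX I sx om x η).D).filter (E2 I Δ r sx sy om th ep ze x y) = ∅ := by
        apply Finset.filter_eq_empty_iff.2
        intro η' h' h3
        obtain ⟨h4, h5, h6, -, -⟩ := h3
        apply hcond
        unfold Good at h6 ⊢
        rw [hc η' h'] at h4 h5 h6
        exact ⟨h4, h5, h6⟩
      show ((((I.Cls η (RX I sx om x η).D).filter _).card : ℕ) : ℝ) ≤ _
      rw [this]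
      simp only [Finset.card_empty, Nat.cast_zero]
      exact mul_nonneg (Nat.cast_nonneg _) (Real.exp_pos _).le

/-- second exploration: exceptional set for the collisions with the first one -/
def E3 (I : Inst K) (r sx sy : ℕ) (om ep : ℝ) (x y : I.H) (η : I.H → I.H) : Prop :=
  y ∉ (RX I sx om x η).D ∧ y ∉ (RX I sx om x η).L ∧
  NC r sy om η ⌈(sy : ℝ) / om⌉₊ (init (RX I sx om x η).D (RX I sx om x η).L y) ∧
    Z sy (fun _ _ => 0) (fun a => if a ∈ Lf sx om (RX I sx om x η) then (RX I sx om x η).wt a else 0)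
      (RY I sx sy om x y η) < ∑ a ∈ Lf sx om (RX I sx om x η), (RX I sx om x η).wt a - ep

lemma half_pow {r s : ℕ} (h : r ≤ s) : ((1 : ℝ) / 2) ^ s ≤ (1 / 2) ^ r :=
  pow_le_pow_of_le_one (by norm_num) (by norm_num) h

lemma E3_card (hTL1 : S_TL1) (hCL : S_CL) (hTN : S_TN) (hWT : S_WT) {Δ : ℕ} (I : Inst K)
    (hV : I.Valid Δ)
    (r sx sy : ℕ) (om B lam ep : ℝ) (hom : 0 < om) (hlam : 0 ≤ lam) (hrx : r ≤ sx)
    (hry : r ≤ sy)
    (hB : 2 + 2 * Δ * ((sx : ℝ) + sy) / om ≤ B) (hN : 4 * K * (3 * B + 2) ≤ I.N)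
    (homr : om ≤ (1 / (Δ : ℝ)) ^ r) (hlr : 4 * lam * (1 / 2) ^ r ≤ 1) (x y : I.H) :
    ((I.Om.filter (E3 I r sx sy om ep x y)).card : ℝ)
      ≤ I.Om.card * e1 I Δ r om B lam ep (sx + sy) := by
  have hB0 : 0 ≤ 2 * (Δ : ℝ) * ((sx : ℝ) + sy) / om := by positivity
  obtain ⟨-, -, hcc, -, -, -⟩ := hTN K Δ I hV
  refine part_le I (fun η => (RX I sx om x η).D) ?_ _ _ ?_
  · intro η hη η' h'
    rw [(RX_spec hCL I hV sx hom x hη).2.1 η' h']
  · intro η hη
    obtain ⟨hi, hc, hp⟩ := RX_spec hCL I hV sx hom x hη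
    by_cases hcond : y ∉ (RX I sx om x η).D ∧ y ∉ (RX I sx om x η).L
    · obtain ⟨hy1, hy2⟩ := hcond
      have hcap := (RY_spec hCL I hV sx sy hom hB x y hη hy1 hy2).2.2.2.2.2
      have hw : ∀ a ∈ Lf sx om (RX I sx om x η), 0 ≤ (RX I sx om x η).wt a := fun a ha =>
        (hi.wpos a (Finset.mem_filter.1 ha).1).le
      have hs : ∑ a ∈ Lf sx om (RX I sx om x η), (RX I sx om x η).wt a ≤ 1 :=
        le_trans (Finset.sum_le_sum_of_subset_of_nonneg (Finset.filter_subset _ _)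
          fun a ha _ => (hi.wpos a ha).le) hi.sum1
      have hw2 : ∀ a ∈ Lf sx om (RX I sx om x η), (RX I sx om x η).wt a ≤ (1 / 2) ^ r := by
        intro a ha
        obtain ⟨h3, h4, h5⟩ := Finset.mem_filter.1 ha
        have h6 := hWT K Δ I hV sx om η ∅ ∅ x ⌈(sx : ℝ) / om⌉₊ hom hη (by simp) (by simp) (by simp)
          a h3
        refine le_trans h6 (half_pow ?_)
        have : (RX I sx om x η).dep a = sx := h4
        unfold RX at this
        rw [this]
        exact hrx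
      have hsub : Lf sx om (RX I sx om x η) ⊆ (RX I sx om x η).L := Finset.filter_subset _ _
      have hsumb : ∑ a ∈ (RX I sx om x η).L,
          (if a ∈ Lf sx om (RX I sx om x η) then (RX I sx om x η).wt a else 0)
          = ∑ a ∈ Lf sx om (RX I sx om x η), (RX I sx om x η).wt a := by
        rw [Finset.sum_ite_mem, Finset.inter_eq_right.2 hsub]
      have hLD : (RX I sx om x η).L \ (RX I sx om x η).D = (RX I sx om x η).L :=
        Finset.sdiff_eq_self_of_disjoint (Finset.disjoint_left.2 fun a ha => hi.LD a ha)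
      have h1 := hTL1 K Δ I hV r sy om B lam 0 ep
        (fun _ _ => 0)
        (fun a => if a ∈ Lf sx om (RX I sx om x η) then (RX I sx om x η).wt a else 0) η
        (RX I sx om x η).D (RX I sx om x η).L y
        hom hlam (fun _ _ => le_rfl) (fun _ _ => zero_le_one)
        (fun a => by
          split_ifs with h
          · exact hw a h
          · exact le_rfl) hη hi.closed hy1 hy2 hcap
        (by
          refine le_trans ?_ hN
          have : (0 : ℝ) ≤ 4 * K := by positivity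
          nlinarith)
        hry homr hlr
        (fun a _ => by
          split_ifs with h
          · refine le_trans ?_ hlr
            exact mul_le_mul_of_nonneg_left (hw2 a h) (by positivity)
          · simp)
        (by rw [hsumb]; exact hs)
        (fun k z hz1 hz2 => (hcc _ _ _ _).ge)
        ⌈(sy : ℝ) / om⌉₊
      refine le_trans ?_ (le_trans h1 (mul_le_mul_of_nonneg_left
        (e1_mono (s := (sy : ℝ)) I Δ r hom (by linarith) hlam (by simp)) (Nat.cast_nonneg _)))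
      refine Nat.cast_le.2 (Finset.card_le_card ?_)
      intro η' h'
      obtain ⟨h2, h3⟩ := Finset.mem_filter.1 h'
      obtain ⟨-, -, h4, h5⟩ := h3
      have h6 := hc η' h2
      rw [Finset.mem_filter]
      unfold RY at h5
      rw [h6] at h4 h5
      refine ⟨h2, h4, ?_⟩
      rw [hLD, hsumb, zero_add]
      exact h5
    · have : (I.Cls η (RX I sx om x η).D).filter (E3 I r sx sy om ep x y) = ∅ := by
        apply Finset.filter_eq_empty_iff.2
        intro η' h' h3
        obtain ⟨h4, h5, -, -⟩ := h3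
        apply hcond
        rw [hc η' h'] at h4 h5
        exact ⟨h4, h5⟩
      show ((((I.Cls η (RX I sx om x η).D).filter _).card : ℕ) : ℝ) ≤ _
      rw [this]
      simp only [Finset.card_empty, Nat.cast_zero]
      exact mul_nonneg (Nat.cast_nonneg _) (Real.exp_pos _).le

/-- error of the final matching -/
noncomputable def e4 (I : Inst K) (B lam' th ep : ℝ) : ℝ :=
  Real.exp (-lam' * ep / I.N + 3 * K * lam' ^ 2 * th / I.N
          + 20 * (K : ℝ) ^ 2 * lam' * (3 * B + 1) / (I.N : ℝ) ^ 2)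

/-- the final matching: exceptional set -/
def E4 (I : Inst K) (sx sy : ℕ) (om th ep : ℝ) (x y : I.H) (η : I.H → I.H) : Prop :=
  y ∉ (RX I sx om x η).D ∧ y ∉ (RX I sx om x η).L ∧
  ∑ u ∈ Lf sx om (RX I sx om x η) \ (RY I sx sy om x y η).D, ∑ v ∈ Lf sy om (RY I sx sy om x y η),
      (if (RX I sx om x η).wt u * (RY I sx sy om x y η).wt v ≤ th ∧ η u = v then
        (RX I sx om x η).wt u * (RY I sx sy om x y η).wt v else 0)
    < ∑ u ∈ Lf sx om (RX I sx om x η) \ (RY I sx sy om x y η).D,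
      ∑ v ∈ Lf sy om (RY I sx sy om x y η),
      (if (RX I sx om x η).wt u * (RY I sx sy om x y η).wt v ≤ th then
        (RX I sx om x η).wt u * (RY I sx sy om x y η).wt v * I.q (I.c u) v else 0) - ep / I.N

lemma E4_card (hCL : S_CL) (hFM : S_FM) (hWT : S_WT) {Δ : ℕ} (I : Inst K)
    (hV : I.Valid Δ)
    (r sx sy : ℕ) (om th B lam' ep : ℝ) (hom : 0 < om) (hth : 0 < th) (hlam : 0 ≤ lam')
    (hrx : r ≤ sx) (hry : r ≤ sy)
    (hB : 2 + 2 * Δ * ((sx : ℝ) + sy) / om ≤ B) (hN : 4 * K * (3 * B + 2) ≤ I.N)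
    (hlr : 4 * lam' * K * (1 / 2) ^ r ≤ I.N) (x y : I.H) :
    ((I.Om.filter (E4 I sx sy om th ep x y)).card : ℝ)
      ≤ I.Om.card * e4 I B lam' th ep := by
  have hB0 : 0 ≤ 2 * (Δ : ℝ) * ((sx : ℝ) + sy) / om := by positivity
  refine part_le I (fun η => if y ∉ (RX I sx om x η).D ∧ y ∉ (RX I sx om x η).L then
    (RY I sx sy om x y η).D else (RX I sx om x η).D) ?_ _ _ ?_
  · intro η hη η' h'
    obtain ⟨hi, hc, hp⟩ := RX_spec hCL I hV sx hom x hη
    by_cases hcond : y ∉ (RX I sx om x η).D ∧ y ∉ (RX I sx om x η).L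
    · obtain ⟨g1, g2, g3, g4, g5, g6⟩ := RY_spec hCL I hV sx sy hom hB x y hη hcond.1 hcond.2
      simp only [if_pos hcond] at h' ⊢
      have h1 : η' ∈ I.Cls η (RX I sx om x η).D := by
        have h4 := Finset.mem_filter.1 h'
        exact Finset.mem_filter.2 ⟨h4.1, fun z hz => h4.2 z (g2 hz)⟩
      rw [hc η' h1, if_pos hcond, g4 η' h']
    · simp only [if_neg hcond] at h' ⊢
      rw [hc η' h', if_neg hcond]
  · intro η hη
    obtain ⟨hi, hc, hp⟩ := RX_spec hCL I hV sx hom x hη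
    by_cases hcond : y ∉ (RX I sx om x η).D ∧ y ∉ (RX I sx om x η).L
    · obtain ⟨hy1, hy2⟩ := hcond
      obtain ⟨g1, g2, g3, g4, g5, g6⟩ := RY_spec hCL I hV sx sy hom hB x y hη hy1 hy2
      simp only [hy1, hy2, not_false_eq_true, and_self, if_true]
      set A := Lf sx om (RX I sx om x η) with hA
      set D' := (RY I sx sy om x y η).D with hD'
      set Ay := Lf sy om (RY I sx sy om x y η) with hAy
      have hAL : A ⊆ (RX I sx om x η).L := Finset.filter_subset _ _
      have hAyL : Ay ⊆ (RY I sx sy om x y η).L := Finset.filter_subset _ _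
      have hax : ∀ a ∈ A, (RX I sx om x η).wt a ≤ (1 / 2) ^ r := by
        intro a ha
        obtain ⟨h3, h4, h5⟩ := Finset.mem_filter.1 ha
        have h6 := hWT K Δ I hV sx om η ∅ ∅ x ⌈(sx : ℝ) / om⌉₊ hom hη (by simp) (by simp) (by simp)
          a h3
        refine le_trans h6 (half_pow ?_)
        have : (RX I sx om x η).dep a = sx := h4
        unfold RX at this
        rw [this]
        exact hrx
      have hay : ∀ a ∈ Ay, (RY I sx sy om x y η).wt a ≤ (1 / 2) ^ r := by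
        intro a ha
        obtain ⟨h3, h4, h5⟩ := Finset.mem_filter.1 ha
        have h6 := hWT K Δ I hV sy om η (RX I sx om x η).D (RX I sx om x η).L y
          ⌈(sy : ℝ) / om⌉₊ hom hη hi.closed hy1 hy2 a h3
        refine le_trans h6 (half_pow ?_)
        have : (RY I sx sy om x y η).dep a = sy := h4
        unfold RY at this
        rw [this]
        exact hry
      have hlK : 0 ≤ 4 * lam' * K := by positivity
      have hcapD : ((D'.card : ℕ) : ℝ) + (RX I sx om x η).L.card ≤ B := by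
        have h3 := g1.cap
        have h4 : 0 ≤ 2 * (Δ : ℝ) * (∑ a ∈ (RY I sx sy om x y η).L, (RY I sx sy om x y η).wt a *
            ((sy : ℝ) - (RY I sx sy om x y η).dep a)) / om := by
          refine div_nonneg (mul_nonneg (by positivity) (Finset.sum_nonneg fun a ha => ?_)) hom.le
          refine mul_nonneg (g1.wpos a ha).le (sub_nonneg.2 ?_)
          exact_mod_cast g1.deps a ha
        have h5 : (0 : ℝ) ≤ (RY I sx sy om x y η).L.card := Nat.cast_nonneg _
        rw [g3] at h3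
        linarith
      have hAc : ((A \ D').card : ℝ) ≤ (RX I sx om x η).L.card :=
        Nat.cast_le.2 (Finset.card_le_card (Finset.sdiff_subset.trans hAL))
      have h1 := hFM K Δ I hV η D' (A \ D') Ay
        (fun a => if a ∈ A then (RX I sx om x η).wt a else 0)
        (fun a => if a ∈ Ay then (RY I sx sy om x y η).wt a else 0) th lam' (3 * B) (ep / I.N)
        hη g1.closed Finset.sdiff_disjoint
        (Finset.disjoint_left.2 fun a ha => g1.LD a (hAyL ha))
        (Finset.disjoint_left.2 fun a ha ha' => by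
          have h2 := g1.LF a (hAyL ha')
          rw [g3] at h2
          exact h2 (hAL (Finset.mem_sdiff.1 ha).1))
        (fun a => by
          split_ifs with h
          · exact (hi.wpos a (hAL h)).le
          · exact le_rfl)
        (fun a => by
          split_ifs with h
          · exact (g1.wpos a (hAyL h)).le
          · exact le_rfl)
        (by
          refine le_trans ?_ hi.sum1
          calc ∑ a ∈ A \ D', (if a ∈ A then (RX I sx om x η).wt a else 0)
              = ∑ a ∈ A \ D', (RX I sx om x η).wt a :=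
                Finset.sum_congr rfl fun a ha => if_pos (Finset.mem_sdiff.1 ha).1
            _ ≤ _ := Finset.sum_le_sum_of_subset_of_nonneg (Finset.sdiff_subset.trans hAL)
                fun a ha _ => (hi.wpos a ha).le)
        (by
          refine le_trans ?_ g1.sum1
          calc ∑ a ∈ Ay, (if a ∈ Ay then (RY I sx sy om x y η).wt a else 0)
              = ∑ a ∈ Ay, (RY I sx sy om x y η).wt a :=
                Finset.sum_congr rfl fun a ha => if_pos ha
            _ ≤ _ := Finset.sum_le_sum_of_subset_of_nonneg hAyL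
                fun a ha _ => (g1.wpos a ha).le)
        hth.le hlam (by
          have : (0 : ℝ) ≤ D'.card := Nat.cast_nonneg _
          linarith) hN
        (fun a ha => by
          simp only [if_pos (Finset.mem_sdiff.1 ha).1]
          exact le_trans (mul_le_mul_of_nonneg_left (hax a (Finset.mem_sdiff.1 ha).1) hlK) hlr)
        (fun a ha => by
          simp only [if_pos ha]
          exact le_trans (mul_le_mul_of_nonneg_left (hay a ha) hlK) hlr)
      have h2 : e4 I B lam' th ep = Real.exp (-lam' * (ep / I.N) + 3 * K * lam' ^ 2 * th / I.N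
          + 20 * (K : ℝ) ^ 2 * lam' * (3 * B + 1) / (I.N : ℝ) ^ 2) := by
        unfold e4
        rw [mul_div_assoc]
      rw [h2]
      refine le_trans ?_ h1
      refine Nat.cast_le.2 (Finset.card_le_card ?_)
      intro η' h'
      obtain ⟨h3, h4⟩ := Finset.mem_filter.1 h'
      have h5 : η' ∈ I.Cls η (RX I sx om x η).D := by
        have h4 := Finset.mem_filter.1 h3
        exact Finset.mem_filter.2 ⟨h4.1, fun z hz => h4.2 z (g2 hz)⟩
      obtain ⟨-, -, h6⟩ := h4
      rw [hc η' h5, g4 η' h3, ← hA, ← hD', ← hAy] at h6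
      rw [Finset.mem_filter]
      refine ⟨h3, ?_⟩
      have h7 : ∑ u ∈ A \ D', ∑ v ∈ Ay,
          (if (if u ∈ A then (RX I sx om x η).wt u else 0)
            * (if v ∈ Ay then (RY I sx sy om x y η).wt v else 0) ≤ th ∧ η' u = v then
            (if u ∈ A then (RX I sx om x η).wt u else 0)
            * (if v ∈ Ay then (RY I sx sy om x y η).wt v else 0) else 0)
          = ∑ u ∈ A \ D', ∑ v ∈ Ay,
            (if (RX I sx om x η).wt u * (RY I sx sy om x y η).wt v ≤ th ∧ η' u = v then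
              (RX I sx om x η).wt u * (RY I sx sy om x y η).wt v else 0) := by
        refine Finset.sum_congr rfl fun u hu => Finset.sum_congr rfl fun v hv => ?_
        rw [if_pos (Finset.mem_sdiff.1 hu).1, if_pos hv]
      have h8 : ∑ u ∈ A \ D', ∑ v ∈ Ay,
          (if (if u ∈ A then (RX I sx om x η).wt u else 0)
            * (if v ∈ Ay then (RY I sx sy om x y η).wt v else 0) ≤ th then
            (if u ∈ A then (RX I sx om x η).wt u else 0)
            * (if v ∈ Ay then (RY I sx sy om x y η).wt v else 0) * I.q (I.c u) v else 0)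
          = ∑ u ∈ A \ D', ∑ v ∈ Ay,
            (if (RX I sx om x η).wt u * (RY I sx sy om x y η).wt v ≤ th then
              (RX I sx om x η).wt u * (RY I sx sy om x y η).wt v * I.q (I.c u) v else 0) := by
        refine Finset.sum_congr rfl fun u hu => Finset.sum_congr rfl fun v hv => ?_
        rw [if_pos (Finset.mem_sdiff.1 hu).1, if_pos hv]
      rw [h7, h8]
      exact h6
    · simp only [if_neg hcond]
      have : (I.Cls η (RX I sx om x η).D).filter (E4 I sx sy om th ep x y) = ∅ := by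
        apply Finset.filter_eq_empty_iff.2
        intro η' h' h3
        obtain ⟨h4, h5, -⟩ := h3
        apply hcond
        rw [hc η' h'] at h4 h5
        exact ⟨h4, h5⟩
      rw [this]
      simp only [Finset.card_empty, Nat.cast_zero]
      exact mul_nonneg (Nat.cast_nonneg _) (Real.exp_pos _).le

/-- outside of the exceptional sets the walk is large -/
lemma good_P (hCL : S_CL) (hTN : S_TN) (hSK : S_SK) (hREV : S_REV) (hDNC : S_DNC) (hQ : S_Q)
    {Δ : ℕ} (I : Inst K) (hV : I.Valid Δ)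
    (r sx sy : ℕ) (om th B ep ze : ℝ) (hom : 0 < om) (hth : 0 < th) (hep : 0 < ep)
    (hB : 2 + 2 * Δ * ((sx : ℝ) + sy) / om ≤ B) (x y : I.H) {η : I.H → I.H} (hη : η ∈ I.Om)
    (hbx : ¬ Bad r η x) (hby : ¬ Bad r η y)
    (ht : ∀ l : List I.H, List.IsChain (Nb η) (y :: l) → l.length ≤ r →
        ∀ h ∈ (RX I sx om x η).D ∪ (RX I sx om x η).L, h.1 ≠ endv η y l)
    (hy1 : y ∉ (RX I sx om x η).D) (hy2 : y ∉ (RX I sx om x η).L)
    (h1 : ∀ k', ¬ E1 I Δ r sx sy om th ep ze x k' η)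
    (h2 : ¬ E2 I Δ r sx sy om th ep ze x y η)
    (h3 : ¬ E3 I r sx sy om ep x y η) (h4 : ¬ E4 I sx sy om th ep x y η) :
    (ze - 4 * K * ep) / I.N ≤ ((I.P η) ^ (sx + sy)) x (η y) := by
  have hK : (1 : ℝ) ≤ K := by
    have := hV.hK
    exact_mod_cast (by omega : 1 ≤ K)
  have hNp : (0 : ℝ) < I.N := by exact_mod_cast hV.npos
  obtain ⟨hM0, hM1, -⟩ := hQ K Δ I hV
  obtain ⟨hi, hc, hp⟩ := RX_spec hCL I hV sx hom x hη
  obtain ⟨g1, g2, g3, g4, g5, g6⟩ := RY_spec hCL I hV sx sy hom hB x y hη hy1 hy2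
  have hNCx : NC r sx om η ⌈(sx : ℝ) / om⌉₊ (init ∅ ∅ x) :=
    hDNC K Δ I hV r sx om η ∅ ∅ x hom hη (by simp) (by simp) (by simp) hbx (by simp) _
  have hgood : Good I Δ r sx sy om th ep ze x η := by
    intro k'
    have h5 : ¬ (Z sx (GX I Δ r sy om th k') (fun _ => 0) (RX I sx om x η) < ze / K - ep) :=
      fun h => h1 k' ⟨hNCx, h⟩
    have h6 := Z_le hTN I hV (s := sx) (G := GX I Δ r sy om th k') (b := fun _ => 0)
      (S := RX I sx om x η) (GX_zero hTN I hV r sy om th k') hi.wpos hi.deps hp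
    simp only [Finset.sum_const_zero, add_zero] at h6
    push Not at h5
    linarith
  have hNCy : NC r sy om η ⌈(sy : ℝ) / om⌉₊ (init (RX I sx om x η).D (RX I sx om x η).L y) :=
    hDNC K Δ I hV r sy om η _ _ y hom hη hi.closed hy1 hy2 hby ht _
  have hP := P_low hSK hREV I hV (sx := sx) (sy := sy) hom hη x y ⌈(sx : ℝ) / om⌉₊
    ⌈(sy : ℝ) / om⌉₊ (RX I sx om x η).D (RX I sx om x η).L hi.closed hy1 hy2 hi.wpos g1.wpos
  change ∑ u ∈ Lf sx om (RX I sx om x η), ∑ v ∈ Lf sy om (RY I sx sy om x y η),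
      (if η u = v then (RX I sx om x η).wt u * (RY I sx sy om x y η).wt v
        else 0) ≤ ((I.P η) ^ (sx + sy)) x (η y) at hP
  unfold E2 at h2
  unfold E3 at h3
  unfold E4 at h4
  have hZ2 : ze / K - ep - ep ≤ ∑ v ∈ Lf sy om (RY I sx sy om x y η),
      (RY I sx sy om x y η).wt v * GY I om th (Lf sx om (RX I sx om x η)) (RX I sx om x η).wt
        (I.c v) (-Real.log ((RY I sx sy om x y η).wt v)) := by
    have h5 : ¬ (Z sy (GY I om th (Lf sx om (RX I sx om x η)) (RX I sx om x η).wt) (fun _ => 0)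
      (RY I sx sy om x y η) < ze / K - ep - ep) := fun h => h2 ⟨hy1, hy2, hgood, hNCy, h⟩
    have h6 := Z_le hTN I hV (s := sy)
      (G := GY I om th (Lf sx om (RX I sx om x η)) (RX I sx om x η).wt) (b := fun _ => 0)
      (S := RY I sx sy om x y η) (GY_zero I om th _ _) g1.wpos g1.deps g5
    simp only [Finset.sum_const_zero, add_zero] at h6
    push Not at h5
    linarith
  have hZ3 : ∑ a ∈ Lf sx om (RX I sx om x η), (RX I sx om x η).wt a - ep ≤
      ∑ a ∈ Lf sx om (RX I sx om x η) \ (RY I sx sy om x y η).D, (RX I sx om x η).wt a := by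
    have h5 : ¬ (Z sy (fun _ _ => 0) (fun a => if a ∈ Lf sx om (RX I sx om x η) then
        (RX I sx om x η).wt a else 0) (RY I sx sy om x y η)
        < ∑ a ∈ Lf sx om (RX I sx om x η), (RX I sx om x η).wt a - ep) :=
      fun h => h3 ⟨hy1, hy2, hNCy, h⟩
    have h6 := Z_le hTN I hV (s := sy)
      (G := fun _ _ => 0) (b := fun a => if a ∈ Lf sx om (RX I sx om x η) then
        (RX I sx om x η).wt a else 0)
      (S := RY I sx sy om x y η) (fun _ _ _ => rfl) g1.wpos g1.deps g5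
    simp only [mul_zero, Finset.sum_const_zero, zero_add] at h6
    push Not at h5
    refine le_trans (le_trans h5 h6) (le_of_eq ?_)
    rw [g3, Finset.sum_ite_mem]
    apply Finset.sum_congr _ fun _ _ => rfl
    ext a
    simp only [Finset.mem_inter, Finset.mem_sdiff]
    constructor
    · rintro ⟨⟨-, h7⟩, h8⟩
      exact ⟨h8, h7⟩
    · rintro ⟨h8, h7⟩
      exact ⟨⟨(Finset.mem_filter.1 h8).1, h7⟩, h8⟩
  have hZ4 : ∑ u ∈ Lf sx om (RX I sx om x η) \ (RY I sx sy om x y η).D,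
      ∑ v ∈ Lf sy om (RY I sx sy om x y η),
      (if (RX I sx om x η).wt u * (RY I sx sy om x y η).wt v ≤ th then
        (RX I sx om x η).wt u * (RY I sx sy om x y η).wt v * I.q (I.c u) v else 0) - ep / I.N
      ≤ ∑ u ∈ Lf sx om (RX I sx om x η) \ (RY I sx sy om x y η).D,
        ∑ v ∈ Lf sy om (RY I sx sy om x y η),
      (if (RX I sx om x η).wt u * (RY I sx sy om x y η).wt v ≤ th ∧ η u = v then
        (RX I sx om x η).wt u * (RY I sx sy om x y η).wt v else 0) := by
    by_contra h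
    push Not at h
    exact h4 ⟨hy1, hy2, h⟩
  clear h1 h2 h3 h4 hgood hNCx hNCy hbx hby ht g2 g4 g5 g6 hc hp
  set A := Lf sx om (RX I sx om x η) with hA
  set Ay := Lf sy om (RY I sx sy om x y η) with hAy
  set D' := (RY I sx sy om x y η).D with hD'
  set wx := (RX I sx om x η).wt with hwx
  set wy := (RY I sx sy om x y η).wt with hwy
  have pA : ∀ u ∈ A, 0 < wx u := fun u hu => hi.wpos u (Finset.mem_filter.1 hu).1
  have pAy : ∀ v ∈ Ay, 0 < wy v := fun v hv => g1.wpos v (Finset.mem_filter.1 hv).1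
  have sAy : ∑ v ∈ Ay, wy v ≤ 1 :=
    le_trans (Finset.sum_le_sum_of_subset_of_nonneg (Finset.filter_subset _ _)
          fun a ha _ => (g1.wpos a ha).le) g1.sum1
  have hsplit : ∀ f : I.H → ℝ, ∑ u ∈ A, f u = ∑ u ∈ A \ D', f u + ∑ u ∈ A ∩ D', f u := by
    intro f
    rw [← Finset.sum_inter_add_sum_sdiff A D']
    ring
  have hin : ∑ u ∈ A ∩ D', wx u ≤ ep := by
    have := hsplit wx
    linarith
  have hGY : ∀ v ∈ Ay, GY I om th A wx (I.c v) (-Real.log (wy v)) ≤
      ∑ u ∈ A \ D', wx u * (if wx u * wy v ≤ th then I.Msw (I.c u) (I.c v) else 0) + ep := by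
    intro v hv
    have hv1 := pAy v hv
    have h5 : GY I om th A wx (I.c v) (-Real.log (wy v))
        ≤ ∑ u ∈ A, wx u * (if wx u * wy v ≤ th then I.Msw (I.c u) (I.c v) else 0) := by
      unfold GY
      refine Finset.sum_le_sum fun u hu => mul_le_mul_of_nonneg_left ?_ (pA u hu).le
      have hu1 := pA u hu
      split_ifs with h6 h7
      · exact le_rfl
      · exfalso
        apply h7
        have h8 : Real.log (wx u * wy v) ≤ Real.log th := by
          rw [Real.log_mul hu1.ne' hv1.ne']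
          linarith [h6.1]
        exact (Real.log_le_log_iff (mul_pos hu1 hv1) hth).1 h8
      · exact hM0 _ _
      · exact le_rfl
    refine le_trans h5 ?_
    rw [hsplit]
    gcongr
    refine le_trans (Finset.sum_le_sum fun u hu => ?_) hin
    refine mul_le_of_le_one_right (pA u (Finset.mem_inter.1 hu).1).le ?_
    split_ifs
    · exact hM1 _ _
    · norm_num
  have hmain : ze / K - 3 * ep ≤ ∑ v ∈ Ay, wy v *
      ∑ u ∈ A \ D', wx u * (if wx u * wy v ≤ th then I.Msw (I.c u) (I.c v) else 0) := by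
    have h5 : ∑ v ∈ Ay, wy v * GY I om th A wx (I.c v) (-Real.log (wy v)) ≤
        ∑ v ∈ Ay, wy v *
      ∑ u ∈ A \ D', wx u * (if wx u * wy v ≤ th then I.Msw (I.c u) (I.c v) else 0)
        + ∑ v ∈ Ay, wy v * ep := by
      rw [← Finset.sum_add_distrib]
      refine Finset.sum_le_sum fun v hv => ?_
      have := mul_le_mul_of_nonneg_left (hGY v hv) (pAy v hv).le
      linarith
    have h6 : ∑ v ∈ Ay, wy v * ep ≤ ep := by
      rw [← Finset.sum_mul]
      exact mul_le_of_le_one_left hep.le sAy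
    linarith
  have hq : ∑ u ∈ A \ D', ∑ v ∈ Ay,
      (if wx u * wy v ≤ th then wx u * wy v * I.q (I.c u) v else 0)
      = (K : ℝ) / I.N * ∑ v ∈ Ay, wy v *
      ∑ u ∈ A \ D', wx u * (if wx u * wy v ≤ th then I.Msw (I.c u) (I.c v) else 0) := by
    rw [Finset.sum_comm, Finset.mul_sum]
    refine Finset.sum_congr rfl fun v _ => ?_
    rw [Finset.mul_sum, Finset.mul_sum]
    refine Finset.sum_congr rfl fun u _ => ?_
    unfold Inst.q
    split_ifs
    · ring
    · ring
  rw [hq] at hZ4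
  have hfin : ∑ u ∈ A \ D', ∑ v ∈ Ay,
      (if wx u * wy v ≤ th ∧ η u = v then wx u * wy v else 0)
      ≤ ∑ u ∈ A, ∑ v ∈ Ay, (if η u = v then wx u * wy v else 0) := by
    refine le_trans ?_ (Finset.sum_le_sum_of_subset_of_nonneg (s := A \ D')
      Finset.sdiff_subset fun u hu _ => Finset.sum_nonneg fun v hv => ?_)
    · refine Finset.sum_le_sum fun u hu => Finset.sum_le_sum fun v hv => ?_
      have h5 := pA u (Finset.mem_sdiff.1 hu).1
      have h6 := pAy v hv
      split_ifs with h7 h8 h9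
      · exact le_rfl
      · exact absurd h7.2 h8
      · exact (mul_pos h5 h6).le
      · exact le_rfl
    · have h5 := pA u hu
      have h6 := pAy v hv
      split_ifs
      · exact (mul_pos h5 h6).le
      · exact le_rfl
  refine le_trans ?_ (le_trans (le_trans hZ4 hfin) hP)
  have h5 : (K : ℝ) / I.N * (ze / K - 3 * ep) ≤ (K : ℝ) / I.N * ∑ v ∈ Ay, wy v *
      ∑ u ∈ A \ D', wx u * (if wx u * wy v ≤ th then I.Msw (I.c u) (I.c v) else 0) :=
    mul_le_mul_of_nonneg_left hmain (by positivity)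
  refine le_trans ?_ (sub_le_sub_right h5 _)
  have h6 : (K : ℝ) / I.N * (ze / K - 3 * ep) - ep / I.N = (ze - 3 * K * ep - ep) / I.N := by
    have : (K : ℝ) ≠ 0 := by positivity
    field_simp
  rw [h6]
  apply div_le_div_of_nonneg_right _ hNp.le
  nlinarith

theorem main (hTL1 : S_TL1) (hCL : S_CL) (hTN : S_TN) (hSK : S_SK) (hREV : S_REV) (hDNC : S_DNC)
    (hQ : S_Q) (hWT : S_WT) (hFM : S_FM) : S_PAIR := by
  intro K Δ I hV r sx sy om th B lam lam' ep ze hom hth hlam hlam' hep hrx hry hB hN homr hlr hlr'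
    hid x y
  have c1 := fun k' => E1_card hTL1 hTN hQ I hV r sx sy om th B lam ep ze hom hlam hrx hB hN homr
    hlr hid x k'
  have c2 := E2_card hTL1 hCL hTN hQ I hV r sx sy om th B lam ep ze hom hlam hry hB hN homr
    hlr x y
  have c3 := E3_card hTL1 hCL hTN hWT I hV r sx sy om B lam ep hom hlam hrx hry hB hN homr
    hlr x y
  have c4 := E4_card hCL hFM hWT I hV r sx sy om th B lam' ep hom hth hlam' hrx hry hB hN hlr' x y
  have hsub : (I.Om.filter fun η =>
      ¬ Bad r η x ∧ ¬ Bad r η y ∧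
      (∀ l : List I.H, List.IsChain (Nb η) (y :: l) → l.length ≤ r →
        ∀ h ∈ (run sx om η ⌈(sx : ℝ) / om⌉₊ (init ∅ ∅ x)).D
              ∪ (run sx om η ⌈(sx : ℝ) / om⌉₊ (init ∅ ∅ x)).L, h.1 ≠ endv η y l) ∧
      y ∉ (run sx om η ⌈(sx : ℝ) / om⌉₊ (init ∅ ∅ x)).D ∧
      y ∉ (run sx om η ⌈(sx : ℝ) / om⌉₊ (init ∅ ∅ x)).L ∧
      ((I.P η) ^ (sx + sy)) x (η y) < (ze - 4 * K * ep) / I.N) ⊆
      ((univ.biUnion fun k' => I.Om.filter (E1 I Δ r sx sy om th ep ze x k')) ∪
        I.Om.filter (E2 I Δ r sx sy om th ep ze x y)) ∪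
        (I.Om.filter (E3 I r sx sy om ep x y) ∪ I.Om.filter (E4 I sx sy om th ep x y)) := by
    intro η h
    obtain ⟨hη, hbx, hby, ht, hy1, hy2, hP⟩ := Finset.mem_filter.1 h
    by_contra hn
    simp only [Finset.mem_union, Finset.mem_biUnion, Finset.mem_univ, true_and, not_or,
      not_exists, Finset.mem_filter, hη] at hn
    obtain ⟨⟨h1, h2⟩, h3, h4⟩ := hn
    exact absurd hP (not_lt.2 (good_P hCL hTN hSK hREV hDNC hQ I hV r sx sy om th B ep ze hom hth
      hep hB x y hη hbx hby ht hy1 hy2 h1 h2 h3 h4))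
  have hcard := Finset.card_le_card hsub
  have h1 : (((univ.biUnion fun k' : Fin K =>
      I.Om.filter (E1 I Δ r sx sy om th ep ze x k')).card : ℕ) : ℝ)
      ≤ K * (I.Om.card * e1 I Δ r om B lam ep (sx + sy)) := by
    calc (((univ.biUnion fun k' : Fin K =>
      I.Om.filter (E1 I Δ r sx sy om th ep ze x k')).card : ℕ) : ℝ)
        ≤ ∑ k' : Fin K, ((I.Om.filter (E1 I Δ r sx sy om th ep ze x k')).card : ℝ) := by
          exact_mod_cast Finset.card_biUnion_le
      _ ≤ ∑ k' : Fin K, (I.Om.card * e1 I Δ r om B lam ep (sx + sy)) :=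
          Finset.sum_le_sum fun k' _ => c1 k'
      _ = _ := by simp
  have h2 := Finset.card_union_le
    ((univ.biUnion fun k' => I.Om.filter (E1 I Δ r sx sy om th ep ze x k')) ∪
        I.Om.filter (E2 I Δ r sx sy om th ep ze x y))
        (I.Om.filter (E3 I r sx sy om ep x y) ∪ I.Om.filter (E4 I sx sy om th ep x y))
  have h3 := Finset.card_union_le
    (univ.biUnion fun k' => I.Om.filter (E1 I Δ r sx sy om th ep ze x k'))
        (I.Om.filter (E2 I Δ r sx sy om th ep ze x y))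
  have h4 := Finset.card_union_le
    (I.Om.filter (E3 I r sx sy om ep x y)) (I.Om.filter (E4 I sx sy om th ep x y))
  have h5 : (((I.Om.filter fun η =>
      ¬ Bad r η x ∧ ¬ Bad r η y ∧
      (∀ l : List I.H, List.IsChain (Nb η) (y :: l) → l.length ≤ r →
        ∀ h ∈ (run sx om η ⌈(sx : ℝ) / om⌉₊ (init ∅ ∅ x)).D
              ∪ (run sx om η ⌈(sx : ℝ) / om⌉₊ (init ∅ ∅ x)).L, h.1 ≠ endv η y l) ∧
      y ∉ (run sx om η ⌈(sx : ℝ) / om⌉₊ (init ∅ ∅ x)).D ∧
      y ∉ (run sx om η ⌈(sx : ℝ) / om⌉₊ (init ∅ ∅ x)).L ∧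
      ((I.P η) ^ (sx + sy)) x (η y) < (ze - 4 * K * ep) / I.N).card : ℕ) : ℝ) ≤
      (((univ.biUnion fun k' => I.Om.filter (E1 I Δ r sx sy om th ep ze x k')).card : ℕ) : ℝ)
      + (((I.Om.filter (E2 I Δ r sx sy om th ep ze x y)).card : ℕ) : ℝ)
      + ((((I.Om.filter (E3 I r sx sy om ep x y)).card : ℕ) : ℝ)
      + (((I.Om.filter (E4 I sx sy om th ep x y)).card : ℕ) : ℝ)) := by
    have := (hcard.trans h2).trans (add_le_add h3 h4)
    exact_mod_cast this
  refine le_trans h5 ?_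
  have h6 : (I.Om.card : ℝ) * ((K + 2) *
        Real.exp (-lam * ep + 4 * lam ^ 2 * (1 / 2) ^ r + lam * I.err Δ om B * ((sx : ℝ) + sy))
      + Real.exp (-lam' * ep / I.N + 3 * K * lam' ^ 2 * th / I.N
          + 20 * (K : ℝ) ^ 2 * lam' * (3 * B + 1) / (I.N : ℝ) ^ 2))
      = K * (I.Om.card * e1 I Δ r om B lam ep (sx + sy))
        + I.Om.card * e1 I Δ r om B lam ep (sx + sy)
        + (I.Om.card * e1 I Δ r om B lam ep (sx + sy) + I.Om.card * e4 I B lam' th ep) := by
    unfold e1 e4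
    ring
  rw [h6]
  exact add_le_add (add_le_add h1 c2) (add_le_add c3 c4)

end KS.PAIR_helper46
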